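import Pool.Agent.H367.OS.Thk

/-!
# Schur-finiteness of motives and one sequence of cubics over the integers

A relation `r` of size `m` is one of the equations `x_i x_j = x_l`, `x_i + x_j = x_l`, `x_i = 1` with
`i, j, l < m`. Let `G_m` be the following polynomial with integral coefficients (`univ ℤ m`). There are
variables `x_i` and `z_ij` for `i, j < m`, and `c_r` for all relations `r`. The equations (`eqn`) are

  `z_ij - x_i x_j`,  `c_r ^ 2 - c_r`,  `c_r ρ_r`,

where `ρ_r` is the linear polynomial `z_ij - x_l`, `x_i + x_j - x_l` or `x_i - 1` of the relation.
`G_m` is the sum of the equations multiplied by further variables `t_e`, one for each equation. It has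
degree three. Let `C_m` be the affine cubic hypersurface `G_m = 1` (`cub R m` over the ring `R`); it is
smooth over the integers.

Let `k` be a prime field (`ℚ` or `𝔽_p`), let `C` be the category of geometric motives over `k` with
rational coefficients, and let `D.M X` and `D.Mc X` be the motive and the motive with compact support
of the scheme `X`. `Question D` is question Q1 for the field `k`: the motives `M(X)` of all smooth
separated schemes of finite type over `k` are Schur-finite. (Motives of smooth schemes that are not
separated are obtained by cones, and Schur-finiteness has the two-out-of-three property.)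

`Q1 K` is question Q1 for the field `K`. We consider the fields `K` which are algebraic over `k`. The
motives over `K` come from finite extensions `K'` of `k`, and a scheme over `K'` is a scheme `X` over
`k` and an open and closed subscheme of `X_{K'}`. So question Q1 for all these fields is equivalent to
question Q1 for `k` (hypothesis `algebraic`).

**Theorem.** (1) Question Q1 has a positive answer for all fields which are algebraic over `k` if and
only if the motives `M(C_m)` of the hypersurfaces `C_m` over `k` are Schur-finite for infinitely many
`m`, and if and only if the motives with compact support of all separated schemes of finite type over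
`k` are Schur-finite.

(2) For every smooth scheme `X` over `k` there is an `m₀` such that for all `m ≥ m₀` the motive `M(X)`
is Schur-finite if `M(C_m)` is Schur-finite.

(3) `G_m` has integral coefficients and degree at most three, and `C_m` is smooth over all rings.

The hypotheses are standard (`IsMotives`, from the library): localization triangles, affine bundles,
Poincaré duality, and the two-out-of-three property of Schur-finiteness (Guletskii, Mazza); the motive
with compact support of an open and closed subscheme is a direct factor (`disjoint`).

Idea of the proof. The projection of `C_m` to the affine space with the coordinates `x, z, c` is an affine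
bundle over the complement of the zero set `W_m` of the equations. So the motive of `C_m` generates the
motive of `W_m`, by the localization triangle. The scheme `W_m` is the disjoint union, over all sets `s`
of relations (`c_r = 1` for `r ∈ s` and `c_r = 0` for the others), of the affine schemes defined by the
relations in `s`. Every affine scheme of finite type over a prime field is defined by relations of these
three kinds, for all large `m`.

The universal system is the one of helper854 (`Pool.Agent.H854.SQ`).
-/

set_option autoImplicit false

open CategoryTheory MonoidalCategory AlgebraicGeometry Pool.Agent.TH137.DG Pool.Agent.Y116.UV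
  Pool.Agent.Z125.UN Pool.Agent.Q193.LT Pool.Agent.H854.SQ Pool.Agent.H367.OS Pretriangulated

universe v u



namespace Pool.Agent.Results.MP_fc2ced_ag.OneSequenceOverTheIntegers

variable {k : Type} [Field k] {C : Type u} [Category.{v} C] [MonoidalCategory C]
  [SymmetricCategory C] [Preadditive C] [Linear ℚ C] [Limits.HasZeroObject C] [HasShift C ℤ]
  [∀ n : ℤ, (shiftFunctor C n).Additive] [Pretriangulated C]

/-- Question Q1 for the field `k`: the motives of all smooth schemes are Schur-finite. -/
def Question (D : Motives k C) : Prop :=
  ∀ X : Sch k, FT True X → Smooth X.hom → IsSchurFinite (D.M X)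

/-- **Schur-finiteness of motives and one sequence of cubic hypersurfaces over the integers.** See the
explanations above. -/
theorem result (hk : IsPrimeField k) {D : Motives k C} (h : IsMotives D)
    (disjoint : ∀ {Z X U : Sch k} (i : Z ⟶ X) (j : U ⟶ X), FT True X → IsTriple i j →
      IsOpenImmersion i.left → ∃ (s : D.Mc Z ⟶ D.Mc X) (r : D.Mc X ⟶ D.Mc Z), s ≫ r = 𝟙 _)
    {Q1 : ∀ (K : Type) [Field K], Prop}
    (algebraic : (∀ (K : Type) [Field K] [Algebra k K] [Algebra.IsAlgebraic k K], Q1 K) ↔
      Question D) :
    List.TFAE [
      ∀ (K : Type) [Field K] [Algebra k K] [Algebra.IsAlgebraic k K], Q1 K,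
      Question D,
      ∀ X : Sch k, FT True X → IsSchurFinite (D.Mc X),
      ∃ᶠ m in Filter.atTop, IsSchurFinite (D.M (cub k m))] ∧
    (∀ X : Sch k, FT True X → Smooth X.hom → ∃ m₀ : ℕ, ∀ m, m₀ ≤ m →
      IsSchurFinite (D.M (cub k m)) → IsSchurFinite (D.M X)) ∧
    ∀ m : ℕ, (univ ℤ m).totalDegree ≤ 3 ∧
      ∀ (R : Type) [CommRing R], MvPolynomial.map (Int.castRingHom R) (univ ℤ m) = univ R m ∧
        Smooth (cub R m).hom := by
  have hc : Clopen fun X : Sch k => IsSchurFinite (D.Mc X) := by
    intro Z X U i j hX ht hi hS
    obtain ⟨s, r, e⟩ := disjoint i j hX ht hi
    exact sf_retract s r e hS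
  have hu : Uni True fun X : Sch k => IsSchurFinite (D.Mc X) := (bnd_sf h).toUni
  have hcub : ∀ m, IsSchurFinite (D.M (cub k m)) ↔ IsSchurFinite (D.Mc (cub k m)) := fun m =>
    h.duality _ (ft_aff True) (smooth_cub k m)
  refine ⟨?_, fun X hX hs => ?_, cub_facts⟩
  · tfae_have 1 ↔ 2 := algebraic
    tfae_have 2 → 4 := fun g => (Filter.Eventually.of_forall fun m =>
      g _ (ft_aff True) (smooth_cub k m)).frequently
    tfae_have 4 → 3 := fun g X hX =>
      sequence hk hu hc (g.mono fun m hm => (hcub m).mp hm) X hX
    tfae_have 3 → 2 := fun g X hX hs => (h.duality X hX hs).mpr (g X hX)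
    tfae_finish
  · obtain ⟨m₀, hm⟩ := single hk X hX
    exact ⟨m₀, fun m hm1 g => (h.duality X hX hs).mpr (hm m hm1 _ hu hc ((hcub m).mp g))⟩

end Pool.Agent.Results.MP_fc2ced_ag.OneSequenceOverTheIntegers
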