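import Pool.Agent.H839.PZ.Smooth
import Pool.Agent.H839.PZ.Smooth2
import Pool.Graph.R_seed8.Z125.UN.MotUni

/-!
# MP_fc2ced_ag: Schur-finiteness of motives, invertible matrices with prescribed zeros, and networks

`D` are the motives `M X` and the motives with compact support `Mc X` of the schemes over the perfect
field `k`, in the category `C` of geometric motives with rational coefficients; `IsMotives D` lists the
standard properties which are used (`Pool.Agent.Z125.UN.MotDefs` of the library). `FT True X`: `X` is
separated and of finite type over `k`.

For a set `F` of places in an `m × m` matrix and constants `c` in `k`, `GLP F c` is the scheme of the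
invertible matrices whose entries at the places in `F` are the given constants, the other entries being
independent coordinates (`prm F c` is the matrix). For a set `B` of places, `GLB k B` is the scheme of
the invertible matrices with zeros outside of `B`, the entries in `B` being independent coordinates. Both
are principal open subschemes of affine spaces.

`g : Net k` is a finite network in which every vertex has at most three neighbours; some of its edges
have variable weights and the others have prescribed weights in `k`. `g.co` is the open subscheme of the
affine space of the weights where the Kirchhoff polynomial of the network is not zero (the determinant of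
the reduced Laplace matrix, the weighted number of the spanning trees). `g : Gph` is a finite simple graph
of maximal degree at most three, and `g.co k` is the complement of its graph hypersurface.

Sketch of the proof. Schur-finiteness of `Mc X` is closed under closed-open decompositions, under affine
bundles (in both directions) and under passing from `X × 𝔾_m` to `X`.
1. (Border) If `[[q, u], [v, N]]` is invertible defines a scheme with the property, for the functions
`q = 0` and `q = p` on a scheme, with free `u` and `v`, then so does `p det N ≠ 0`: the bundle of Jouanolou
of the coefficients of `u` is the same in both cases.
2. The entries of a product `YX` of matrices with prescribed entries are the diagonal entries of a Schur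
complement of a matrix with prescribed entries. By 1. the property holds for the open subschemes
`∏ (YX)_e ≠ 0`, so for the closed subschemes `(YX)_e = 0`, `e ∈ E`, for all prescribed entries of `Y` and
`X` and all `E`.
3. Every system of bilinear equations is of this form, and these systems decide (library).
4. Ones are removed by torus actions; a row is split into two shorter rows by one more column.
5. The same for symmetric matrices, which are reduced Laplace matrices of networks. Two edges in series
(a vertex of degree two) can be used in place of an edge and of its contraction, and a vertex is split
into two vertices of smaller degree.
-/

set_option autoImplicit false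

open CategoryTheory MonoidalCategory AlgebraicGeometry Pool.Agent.TH137.DG Pool.Agent.Y116.UV
  Pool.Agent.Z125.UN Pool.Agent.H839.PZ

namespace Pool.Agent.Results.MP_fc2ced_ag.PrescribedZeros

universe v u

variable {k : Type} [Field k] {C : Type u} [Category.{v} C] [MonoidalCategory C]
  [SymmetricCategory C] [Preadditive C] [Linear ℚ C] [Limits.HasZeroObject C] [HasShift C ℤ]
  [∀ n : ℤ, (shiftFunctor C n).Additive] [Pretriangulated C]

/-- Q1 for `k`: the motives of all smooth schemes are Schur-finite. -/
def Question (D : Motives k C) : Prop :=
  ∀ X : Sch k, FT True X → Smooth X.hom → IsSchurFinite (D.M X)

/-- The motives of the schemes of invertible matrices with some prescribed entries in `k`, and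
independent other entries, are Schur-finite. -/
def PrescribedEntries (D : Motives k C) : Prop :=
  ∀ (m : ℕ) (F : Finset (Fin m × Fin m)) (c : Fin m → Fin m → k), IsSchurFinite (D.M (GLP F c))

/-- The motives of the schemes of invertible matrices with some prescribed zeros, independent other
entries, and at most three other entries in every row and in every column, are Schur-finite. -/
def ThreeEntries (D : Motives k C) : Prop :=
  ∀ (m : ℕ) (B : Finset (Fin m × Fin m)), (∀ i, (B.filter fun e => e.1 = i).card ≤ 3) →
    (∀ j, (B.filter fun e => e.2 = j).card ≤ 3) → IsSchurFinite (D.M (GLB k B))

/-- The motives of the complements of the networks of maximal degree three are Schur-finite. -/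
def Networks (D : Motives k C) : Prop := ∀ g : Net k, IsSchurFinite (D.M g.co)

/-- The motives of the complements of the graph hypersurfaces of the graphs of maximal degree three are
Schur-finite. -/
def Graphs (D : Motives k C) : Prop := ∀ g : Gph, IsSchurFinite (D.M (g.co k))

/-- **Theorem.** (1) For every perfect field `k`: the motives of all smooth schemes over `k` are
Schur-finite if and only if the motives of the schemes of invertible matrices with prescribed entries are,
and if and only if the motives of the complements of the networks of maximal degree three are.
(2) For `k = ℚ` and `k = 𝔽_p`: the motives of all smooth schemes over `k` are Schur-finite if and only if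
the motives of the schemes of invertible matrices with prescribed zeros and at most three other entries in
every row and every column are, and if and only if the motives of the complements of the graph
hypersurfaces of the graphs of maximal degree three are. -/
theorem result [PerfectField k] (D : Motives k C) (hD : IsMotives D) :
    ((Question D ↔ PrescribedEntries D) ∧ (Question D ↔ Networks D)) ∧
    (Pool.Agent.Q193.LT.Frac k → (Question D ↔ ThreeEntries D) ∧ (Question D ↔ Graphs D)) := by
  have hB := bnd_sf hD
  have hq : (∀ X : Sch k, FT True X → IsSchurFinite (D.Mc X)) → Question D :=
    fun h X hX hs => (hD.duality X hX hs).mpr (h X hX)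
  refine ⟨⟨⟨fun h m F c => h _ (ft_glp F c) (smooth_glp F c), fun h => hq ?_⟩,
    ⟨fun h g => h _ g.ft (smooth_nco g), fun h => hq ?_⟩⟩, fun hF =>
    ⟨⟨fun h m B _ _ => h _ (ft_glb B) (smooth_glb B), fun h => hq ?_⟩,
    ⟨fun h g => h _ g.ft (smooth_gco g), fun h => hq ?_⟩⟩⟩
  · rw [glp_iff hB]
    intro m F c
    exact (hD.duality _ (ft_glp F c) (smooth_glp F c)).mp (h m F c)
  · rw [net_iff' hB]
    intro g
    exact (hD.duality _ g.ft (smooth_nco g)).mp (h g)
  · rw [cubic_iff hF hB]
    intro m B h1 h2
    exact (hD.duality _ (ft_glb B) (smooth_glb B)).mp (h m B h1 h2)
  · rw [gph_iff hF hB]
    intro g
    exact (hD.duality _ g.ft (smooth_gco g)).mp (h g)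

end Pool.Agent.Results.MP_fc2ced_ag.PrescribedZeros
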